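import Mathlib
import Pool.Agent.Helper38.TW.CountSplit3

/-!
# TW3: all twists, general form

Copy of `Helper38/TW/CountAll.lean` with the squarefree count as hypothesis.

`D ≠ 0`, `|D| ≤ X`, `y ≠ 0`, `y² = D f(x)`. Write `D = D₀ m²`, `D₀` squarefree, `m ≥ 1` (`Nat.sq_mul_squarefree` for `|D|`). `m² ∣ y²`, so `m ∣ y`, `y = m y'`, `y'² = D₀ f(x)`, `y' ≠ 0`: `D₀ ∈ TwSet f (X / m²)`. So the count is at most `∑_{1 ≤ m, m² ≤ X} ncard (TwSet f (X/m²))`.
For `m ≤ X^{1/4}` (say `m^4 ≤ X`): `X/m² ≥ √X`; if `X ≥ 16` then `X / m² ≥ 4` and `log (X / m²) ≥ (1/4) log X`: `ncard ≤ C (X/m²) (4/log X)^c` (w.l.o.g. `c ≤ 1`; note natural division `X / m² ≤ X/m²`). For `m^4 > X`: `ncard ≤ 2 X/m² + 1 ≤ 3 X/m²` and `∑_{m > X^{1/4}} 1/m² ≤ 2 X^{-1/4}`.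
Total `≤ C' X/(log X)^c + 6 X^{3/4} ≤ C'' X/(log X)^c`. (`2 ≤ X < 16`: constant.)
-/

set_option autoImplicit false

namespace Pool.Agent.Helper66.TW

open Finset Polynomial Pool.Agent.Helper38.TW

private theorem icc_ncard (Y : ℕ) : ((Finset.Icc (-(Y : ℤ)) Y : Finset ℤ) : Set ℤ).ncard ≤ 2 * Y + 1 := by
  rw [Set.ncard_coe_finset, Int.card_Icc]
  omega

private theorem tw_sub (f : ℤ[X]) (Y : ℕ) :
    TwSet f Y ⊆ ((Finset.Icc (-(Y : ℤ)) Y : Finset ℤ) : Set ℤ) := by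
  rintro D ⟨-, h, -⟩
  rw [Finset.coe_Icc]
  exact abs_le.1 h

private theorem tw_fin (f : ℤ[X]) (Y : ℕ) : (TwSet f Y).Finite :=
  (Finset.finite_toSet _).subset (tw_sub f Y)

private theorem tw_card (f : ℤ[X]) (Y : ℕ) : (TwSet f Y).ncard ≤ 2 * Y + 1 :=
  (Set.ncard_le_ncard (tw_sub f Y) (Finset.finite_toSet _)).trans (icc_ncard Y)

private theorem all_sub (f : ℤ[X]) (X : ℕ) :
    {D : ℤ | D ≠ 0 ∧ |D| ≤ X ∧ ∃ x y : ℤ, y ≠ 0 ∧ y ^ 2 = D * f.eval x} ⊆
      ⋃ m ∈ (Finset.Icc 1 X).filter (fun m => m ^ 2 ≤ X),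
        (fun D0 : ℤ => D0 * (m : ℤ) ^ 2) '' TwSet f (X / m ^ 2) := by
  rintro D ⟨hD, hX, x, y, hy, h⟩
  obtain ⟨a, b, hab, hsq⟩ := Nat.sq_mul_squarefree D.natAbs
  have hDn : D.natAbs ≠ 0 := Int.natAbs_ne_zero.2 hD
  have hb : b ≠ 0 := by
    rintro rfl
    apply hDn
    rw [← hab]
    simp
  have ha : a ≠ 0 := by
    rintro rfl
    apply hDn
    rw [← hab]
    simp
  have hDX : D.natAbs ≤ X := by
    have h1 : ((D.natAbs : ℕ) : ℤ) ≤ X := by
      rw [Int.natCast_natAbs]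
      exact hX
    exact_mod_cast h1
  have hbX : b ^ 2 ≤ X := by
    calc b ^ 2 = b ^ 2 * 1 := (mul_one _).symm
      _ ≤ b ^ 2 * a := Nat.mul_le_mul_left _ (Nat.one_le_iff_ne_zero.2 ha)
      _ = D.natAbs := hab
      _ ≤ X := hDX
  have hb1 : 1 ≤ b := Nat.one_le_iff_ne_zero.2 hb
  rw [Set.mem_iUnion₂]
  refine ⟨b, Finset.mem_filter.2 ⟨Finset.mem_Icc.2 ⟨hb1, ?_⟩, hbX⟩, D.sign * a, ⟨?_, ?_, x, ?_⟩, ?_⟩
  · calc b = b ^ 1 := (pow_one b).symm
      _ ≤ b ^ 2 := Nat.pow_le_pow_right hb1 (by norm_num)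
      _ ≤ X := hbX
  · have h1 : (D.sign * a).natAbs = a := by
      rw [Int.natAbs_mul, Int.natAbs_sign_of_ne_zero hD, one_mul, Int.natAbs_natCast]
    rw [← Int.squarefree_natAbs, h1]
    exact hsq
  · have h1 : (D.sign * a).natAbs = a := by
      rw [Int.natAbs_mul, Int.natAbs_sign_of_ne_zero hD, one_mul, Int.natAbs_natCast]
    rw [← Int.natCast_natAbs, h1]
    have h2 : a ≤ X / b ^ 2 := by
      rw [Nat.le_div_iff_mul_le (by positivity), mul_comm, hab]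
      exact hDX
    exact_mod_cast h2
  · have hDe : D = D.sign * a * (b : ℤ) ^ 2 := by
      conv_lhs => rw [← Int.sign_mul_natAbs D, ← hab]
      push_cast
      ring
    have h2 : (b : ℤ) ^ 2 ∣ y ^ 2 := by
      rw [h]
      refine Dvd.dvd.mul_right ?_ _
      conv_rhs => rw [hDe]
      exact Dvd.intro_left _ rfl
    obtain ⟨y', hy'⟩ := (Int.pow_dvd_pow_iff two_ne_zero).1 h2
    refine ⟨y', ?_, ?_⟩
    · rintro rfl
      exact hy (by rw [hy', mul_zero])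
    · have hb2 : (b : ℤ) ^ 2 ≠ 0 := pow_ne_zero 2 (by exact_mod_cast hb)
      apply mul_left_cancel₀ hb2
      rw [← mul_pow, ← hy', h]
      conv_lhs => rw [hDe]
      ring
  · change D.sign * a * (b : ℤ) ^ 2 = D
    conv_rhs => rw [← Int.sign_mul_natAbs D, ← hab]
    push_cast
    ring

theorem count_all_gen (f : ℤ[X]) (H : ∃ C c : ℝ, 0 < C ∧ 0 < c ∧ ∀ X : ℕ, 2 ≤ X →
      ((TwSet f X).ncard : ℝ) ≤ C * X / (Real.log X) ^ c) :
    ∃ C c : ℝ, 0 < C ∧ 0 < c ∧ ∀ X : ℕ, 2 ≤ X →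
      (({D : ℤ | D ≠ 0 ∧ |D| ≤ X ∧ ∃ x y : ℤ, y ≠ 0 ∧ y ^ 2 = D * f.eval x}.ncard : ℕ) : ℝ) ≤
        C * X / (Real.log X) ^ c := by
  obtain ⟨C, c, hC, hc, hcount⟩ := H
  have hsum : Summable fun m : ℕ => 1 / (m : ℝ) ^ (3 / 2 : ℝ) :=
    Real.summable_one_div_nat_rpow.2 (by norm_num)
  set Z : ℝ := ∑' m : ℕ, 1 / (m : ℝ) ^ (3 / 2 : ℝ) with hZ
  have hZ1 : 0 ≤ Z := tsum_nonneg fun m => by positivity
  set K : ℝ := C * 4 ^ c + 3 * (8 * c) ^ c with hK
  have hK0 : 0 < K := by positivity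
  refine ⟨K * Z + 3 * 3 ^ c, c, by positivity, hc, fun X hX => ?_⟩
  have hX0 : (0 : ℝ) < X := by
    have : 0 < X := by omega
    exact_mod_cast this
  have hlog : 0 < Real.log X := Real.log_pos (by exact_mod_cast (show 1 < X by omega))
  have hlc : 0 < Real.log X ^ c := Real.rpow_pos_of_pos hlog c
  by_cases hX16 : X < 16
  · -- trivial bound
    have hsub : {D : ℤ | D ≠ 0 ∧ |D| ≤ X ∧ ∃ x y : ℤ, y ≠ 0 ∧ y ^ 2 = D * f.eval x} ⊆
        ((Finset.Icc (-(X : ℤ)) X : Finset ℤ) : Set ℤ) := by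
      rintro D ⟨-, h, -⟩
      rw [Finset.coe_Icc]
      exact abs_le.1 h
    have h1 := (Set.ncard_le_ncard hsub (Finset.finite_toSet _)).trans (icc_ncard X)
    have h2 : (({D : ℤ | D ≠ 0 ∧ |D| ≤ X ∧ ∃ x y : ℤ, y ≠ 0 ∧
        y ^ 2 = D * f.eval x}.ncard : ℕ) : ℝ) ≤ 3 * X := by
      have h3 : (({D : ℤ | D ≠ 0 ∧ |D| ≤ X ∧ ∃ x y : ℤ, y ≠ 0 ∧
          y ^ 2 = D * f.eval x}.ncard : ℕ) : ℝ) ≤ 2 * X + 1 := by exact_mod_cast h1
      have h4 : (2 : ℝ) ≤ X := by exact_mod_cast hX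
      linarith
    refine h2.trans ?_
    rw [le_div_iff₀ hlc]
    have h5 : Real.log X ≤ 3 := by
      have h6 : Real.log X ≤ Real.log 16 := by
        apply Real.log_le_log hX0
        exact_mod_cast hX16.le
      have h7 : Real.log 16 = 4 * Real.log 2 := by
        rw [show (16 : ℝ) = 2 ^ 4 by norm_num, Real.log_pow]
        norm_num
      have h8 := Real.log_two_lt_d9
      linarith
    have h6 : Real.log X ^ c ≤ 3 ^ c := Real.rpow_le_rpow hlog.le h5 hc.le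
    have h7 : 0 ≤ K * Z * X := by positivity
    calc 3 * (X : ℝ) * Real.log X ^ c ≤ 3 * X * 3 ^ c := by gcongr
      _ ≤ (K * Z + 3 * 3 ^ c) * X := by linarith
  · have hX16' : 16 ≤ X := not_lt.1 hX16
    have hX8 : Real.log X ^ c ≤ (8 * c) ^ c * (X : ℝ) ^ (1 / 8 : ℝ) := by
      have h1 : Real.log X ≤ (X : ℝ) ^ (1 / (8 * c)) / (1 / (8 * c)) :=
        Real.log_le_rpow_div hX0.le (by positivity)
      have h2 : (X : ℝ) ^ (1 / (8 * c)) / (1 / (8 * c)) = (8 * c) * (X : ℝ) ^ (1 / (8 * c)) := by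
        rw [div_div_eq_mul_div, div_one, mul_comm]
      rw [h2] at h1
      calc Real.log X ^ c ≤ ((8 * c) * (X : ℝ) ^ (1 / (8 * c))) ^ c :=
            Real.rpow_le_rpow hlog.le h1 hc.le
        _ = (8 * c) ^ c * (X : ℝ) ^ (1 / 8 : ℝ) := by
            rw [Real.mul_rpow (by positivity) (by positivity), ← Real.rpow_mul hX0.le]
            congr 2
            field_simp
    have hterm : ∀ m ∈ (Finset.Icc 1 X).filter (fun m => m ^ 2 ≤ X),
        ((TwSet f (X / m ^ 2)).ncard : ℝ) ≤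
          (K * X / Real.log X ^ c) * (1 / (m : ℝ) ^ (3 / 2 : ℝ)) := by
      intro m hm
      obtain ⟨hm1, hm2⟩ := Finset.mem_filter.1 hm
      have hm1' : 1 ≤ m := (Finset.mem_Icc.1 hm1).1
      have hm0 : (0 : ℝ) < m := by exact_mod_cast hm1'
      have hm1r : (1 : ℝ) ≤ m := by exact_mod_cast hm1'
      have hY : ((X / m ^ 2 : ℕ) : ℝ) ≤ X / (m : ℝ) ^ 2 := by
        have := @Nat.cast_div_le ℝ _ _ _ X (m ^ 2)
        push_cast at this
        exact this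
      have hpow : 1 / (m : ℝ) ^ 2 ≤ 1 / (m : ℝ) ^ (3 / 2 : ℝ) := by
        apply one_div_le_one_div_of_le (Real.rpow_pos_of_pos hm0 _)
        rw [← Real.rpow_natCast (m : ℝ) 2]
        exact Real.rpow_le_rpow_of_exponent_le hm1r (by norm_num)
      by_cases h4 : m ^ 4 ≤ X
      · -- main range
        set t := Nat.sqrt X with ht
        have ht1 : t * t ≤ X := Nat.sqrt_le X
        have ht2 : X < (t + 1) * (t + 1) := Nat.lt_succ_sqrt X
        have ht4 : 4 ≤ t := by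
          rw [ht, Nat.le_sqrt]
          omega
        have hmt : m ^ 2 ≤ t := by
          rw [ht, Nat.le_sqrt]
          calc m ^ 2 * m ^ 2 = m ^ 4 := by ring
            _ ≤ X := h4
        have hYt : t ≤ X / m ^ 2 := by
          rw [Nat.le_div_iff_mul_le (by positivity)]
          exact (Nat.mul_le_mul_left t hmt).trans ht1
        have hXY : X ≤ (X / m ^ 2) ^ 4 := by
          have h5 : (t + 1) ≤ t * t := by nlinarith
          calc X ≤ (t + 1) * (t + 1) := ht2.le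
            _ ≤ (t * t) * (t * t) := Nat.mul_le_mul h5 h5
            _ = t ^ 4 := by ring
            _ ≤ (X / m ^ 2) ^ 4 := Nat.pow_le_pow_left hYt 4
        have hY2 : 2 ≤ X / m ^ 2 := by omega
        have hYlog : Real.log X / 4 ≤ Real.log (X / m ^ 2 : ℕ) := by
          have h5 : Real.log X ≤ Real.log (((X / m ^ 2 : ℕ) : ℝ) ^ 4) := by
            apply Real.log_le_log hX0
            exact_mod_cast hXY
          rw [Real.log_pow] at h5
          push_cast at h5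
          have h6 : Real.log X / 4 ≤ 4 * Real.log ((X / m ^ 2 : ℕ) : ℝ) / 4 := by
            push_cast
            linarith
          linarith
        have h5 := hcount (X / m ^ 2) hY2
        have h6 : (Real.log X / 4) ^ c ≤ Real.log (X / m ^ 2 : ℕ) ^ c :=
          Real.rpow_le_rpow (by positivity) hYlog hc.le
        have h7 : (Real.log X / 4) ^ c = Real.log X ^ c / 4 ^ c :=
          Real.div_rpow hlog.le (by norm_num) c
        have h8 : 0 < (Real.log X / 4) ^ c := Real.rpow_pos_of_pos (by positivity) c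
        calc ((TwSet f (X / m ^ 2)).ncard : ℝ) ≤
              C * ((X / m ^ 2 : ℕ) : ℝ) / Real.log (X / m ^ 2 : ℕ) ^ c := h5
          _ ≤ C * (X / (m : ℝ) ^ 2) / (Real.log X / 4) ^ c := by
              gcongr
          _ = (C * 4 ^ c * X / Real.log X ^ c) * (1 / (m : ℝ) ^ 2) := by
              rw [h7]
              field_simp
          _ ≤ (K * X / Real.log X ^ c) * (1 / (m : ℝ) ^ (3 / 2 : ℝ)) := by
              have h9 : C * 4 ^ c ≤ K := by
                rw [hK]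
                have : 0 ≤ 3 * (8 * c) ^ c := by positivity
                linarith
              gcongr
      · have h4' : X < m ^ 4 := not_le.1 h4
        have h5 := tw_card f (X / m ^ 2)
        have hY1 : 1 ≤ X / m ^ 2 := by
          rw [Nat.one_le_div_iff (by positivity)]
          exact hm2
        have h6 : ((TwSet f (X / m ^ 2)).ncard : ℝ) ≤ 3 * (X / (m : ℝ) ^ 2) := by
          have h7 : (TwSet f (X / m ^ 2)).ncard ≤ 3 * (X / m ^ 2) := by omega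
          calc ((TwSet f (X / m ^ 2)).ncard : ℝ) ≤ ((3 * (X / m ^ 2) : ℕ) : ℝ) := by
                exact_mod_cast h7
            _ = 3 * ((X / m ^ 2 : ℕ) : ℝ) := by push_cast; ring
            _ ≤ 3 * (X / (m : ℝ) ^ 2) := by gcongr
        have h8 : (X : ℝ) ^ (1 / 8 : ℝ) ≤ (m : ℝ) ^ (1 / 2 : ℝ) := by
          have h9 : (X : ℝ) ≤ (m : ℝ) ^ (4 : ℕ) := by exact_mod_cast h4'.le
          calc (X : ℝ) ^ (1 / 8 : ℝ) ≤ ((m : ℝ) ^ (4 : ℕ)) ^ (1 / 8 : ℝ) :=
                Real.rpow_le_rpow hX0.le h9 (by norm_num)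
            _ = (m : ℝ) ^ (1 / 2 : ℝ) := by
                rw [← Real.rpow_natCast (m : ℝ) 4, ← Real.rpow_mul hm0.le]
                norm_num
        have h10 : (m : ℝ) ^ 2 = (m : ℝ) ^ (1 / 2 : ℝ) * (m : ℝ) ^ (3 / 2 : ℝ) := by
          rw [← Real.rpow_add hm0, ← Real.rpow_natCast (m : ℝ) 2]
          norm_num
        have hm12 : 0 < (m : ℝ) ^ (1 / 2 : ℝ) := Real.rpow_pos_of_pos hm0 _
        have hm32 : 0 < (m : ℝ) ^ (3 / 2 : ℝ) := Real.rpow_pos_of_pos hm0 _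
        have h11 : Real.log X ^ c ≤ (8 * c) ^ c * (m : ℝ) ^ (1 / 2 : ℝ) :=
          hX8.trans (by gcongr)
        have h12 : 1 / (m : ℝ) ^ (1 / 2 : ℝ) ≤ (8 * c) ^ c / Real.log X ^ c := by
          rw [div_le_div_iff₀ hm12 hlc, one_mul]
          exact h11
        calc ((TwSet f (X / m ^ 2)).ncard : ℝ) ≤ 3 * (X / (m : ℝ) ^ 2) := h6
          _ = 3 * X * (1 / (m : ℝ) ^ (1 / 2 : ℝ)) * (1 / (m : ℝ) ^ (3 / 2 : ℝ)) := by
              rw [h10]
              field_simp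
          _ ≤ 3 * X * ((8 * c) ^ c / Real.log X ^ c) * (1 / (m : ℝ) ^ (3 / 2 : ℝ)) := by
              gcongr
          _ = (3 * (8 * c) ^ c * X / Real.log X ^ c) * (1 / (m : ℝ) ^ (3 / 2 : ℝ)) := by
              ring
          _ ≤ (K * X / Real.log X ^ c) * (1 / (m : ℝ) ^ (3 / 2 : ℝ)) := by
              have h9 : 3 * (8 * c) ^ c ≤ K := by
                rw [hK]
                have : 0 ≤ C * 4 ^ c := by positivity
                linarith
              gcongr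
    have hfin : (⋃ m ∈ (Finset.Icc 1 X).filter (fun m => m ^ 2 ≤ X),
        (fun D0 : ℤ => D0 * (m : ℤ) ^ 2) '' TwSet f (X / m ^ 2)).Finite :=
      Set.Finite.biUnion (Finset.finite_toSet _) fun m _ => (tw_fin f _).image _
    have h1 := (Set.ncard_le_ncard (all_sub f X) hfin).trans
      (Finset.set_ncard_biUnion_le _ _)
    have h2 : ∑ m ∈ (Finset.Icc 1 X).filter (fun m => m ^ 2 ≤ X),
        ((fun D0 : ℤ => D0 * (m : ℤ) ^ 2) '' TwSet f (X / m ^ 2)).ncard ≤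
        ∑ m ∈ (Finset.Icc 1 X).filter (fun m => m ^ 2 ≤ X), (TwSet f (X / m ^ 2)).ncard :=
      Finset.sum_le_sum fun m _ => Set.ncard_image_le (tw_fin f _)
    have h3 : (({D : ℤ | D ≠ 0 ∧ |D| ≤ X ∧ ∃ x y : ℤ, y ≠ 0 ∧
        y ^ 2 = D * f.eval x}.ncard : ℕ) : ℝ) ≤
        ∑ m ∈ (Finset.Icc 1 X).filter (fun m => m ^ 2 ≤ X), ((TwSet f (X / m ^ 2)).ncard : ℝ) := by
      exact_mod_cast h1.trans h2
    calc (({D : ℤ | D ≠ 0 ∧ |D| ≤ X ∧ ∃ x y : ℤ, y ≠ 0 ∧
        y ^ 2 = D * f.eval x}.ncard : ℕ) : ℝ) ≤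
        ∑ m ∈ (Finset.Icc 1 X).filter (fun m => m ^ 2 ≤ X),
          (K * X / Real.log X ^ c) * (1 / (m : ℝ) ^ (3 / 2 : ℝ)) :=
          h3.trans (Finset.sum_le_sum hterm)
      _ = (K * X / Real.log X ^ c) * ∑ m ∈ (Finset.Icc 1 X).filter (fun m => m ^ 2 ≤ X),
          (1 / (m : ℝ) ^ (3 / 2 : ℝ)) := by rw [Finset.mul_sum]
      _ ≤ (K * X / Real.log X ^ c) * Z := by
          gcongr
          exact hsum.sum_le_tsum _ fun m _ => by positivity
      _ = (K * Z) * X / Real.log X ^ c := by ring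
      _ ≤ (K * Z + 3 * 3 ^ c) * X / Real.log X ^ c := by
          have h9 : K * Z ≤ K * Z + 3 * 3 ^ c := by
            have : (0 : ℝ) ≤ 3 * 3 ^ c := by positivity
            linarith
          gcongr

end Pool.Agent.Helper66.TW
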