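import Mathlib
import Pool.Agent.Helper32.TW.Second
import Pool.Agent.Helper32.TW.Split3
import Pool.Agent.Helper66.TW.CountSFG
import Pool.Agent.Helper66.TW.CountAllG
import Pool.Agent.Helper66.TW.Deg3BoundAll

set_option autoImplicit false

/-! # TW5: all twists, every separable `f` of degree at least 3 -/

namespace Pool.Agent.Helper66.TW

open Polynomial Pool.Agent.Helper38.TW

theorem count_all_f (f : ℤ[X]) (hf : Squarefree (f.map (Int.castRingHom ℚ))) (hd : 3 ≤ f.natDegree) :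
    ∃ C c : ℝ, 0 < C ∧ 0 < c ∧ ∀ X : ℕ, 2 ≤ X →
      (({D : ℤ | D ≠ 0 ∧ |D| ≤ X ∧ ∃ x y : ℤ, y ≠ 0 ∧ y ^ 2 = D * f.eval x}.ncard : ℕ) : ℝ) ≤
        C * X / (Real.log X) ^ c := by
  obtain ⟨n, ⟨dt⟩⟩ := exists_fdata f hf
  refine Pool.Agent.Helper66.TW.count_all_gen f (Pool.Agent.Helper66.TW.count_sf_gen dt
    (Pool.Agent.Helper66.TW.deg3_bound_all dt hd (fun h3 hall => ?_)
      (fun i k hik huniv hi hk => Pool.Agent.Helper32.TW.deg3_second dt i k hik huniv hi hk)))
  refine Pool.Agent.Helper32.TW.split3 dt h3 hall fun F hF h4 => ?_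
  obtain ⟨m, ⟨d⟩⟩ := exists_fdata F hF
  exact Pool.Agent.Helper66.TW.count_sf_gen d
    (Pool.Agent.Helper66.TW.deg3_bound_all d (by omega) (fun h => absurd h (by omega))
      (fun i k hik huniv hi hk => Pool.Agent.Helper32.TW.deg3_second d i k hik huniv hi hk))

end Pool.Agent.Helper66.TW
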